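import Pool.Agent.Q47.FF.Main
import Pool.Agent.Q47.FF.Rest

/-!
# Fujita's very ampleness conjecture for flag bundles

Let `X` be a compact complex manifold, let `c_1, ..., c_q` be arbitrary line bundles on `X`, and let
`Y → X` be the bundle of the (partial or complete) flags of any given type in the fibres of the vector
bundle `c_1 ⊕ ... ⊕ c_q`. (For example the projective bundle, the Grassmann bundles, and the bundle of
complete flags, where `dim Y = dim X + q (q - 1) / 2`.) We consider the adjoint line bundles
`K_Y + L_1 + ... + L_k`, where `L_1, ..., L_k` are ample line bundles on `Y` which may be different.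
(Fujita's conjectures are about the case `L_1 = ... = L_k = A`, `k = dim Y + 1` or `k = dim Y + 2`.)

Part (1) of the theorem reduces the conjecture to the base. Let `k ≥ q + 1`. If for all ample line
bundles `A_1, ..., A_k` on `X` the line bundle
`K_X + A_1 + ... + A_k` is very ample, then for all ample line bundles `L_1, ..., L_k` on `Y` the line
bundle `K_Y + L_1 + ... + L_k` is very ample. (Always `q ≤ dim Y - dim X + 1`, with equality for
projective bundles, unless all fibres of `Y → X` are points.) Instead of all line bundles on `X` one may
take those in a subgroup of `Pic(X)` which contains the `c_i`.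

Part (2) is unconditional: if `X` is a complex torus (for example an abelian variety) of any dimension,
then for all ample line bundles `L_1, ..., L_k` on `Y` the line bundle `K_Y + L_1 + ... + L_k` is
very ample if `k ≥ max(q + 1, 3)`. In particular Fujita's very ampleness conjecture holds for `Y`. The
bounds depend neither on `dim X` nor on the type of the flags.

The proof of (1). A line bundle on `Y` is of the form `O_Y(d; M)`, where `d` is a weight and `M` is a
line bundle on `X`; its sections are the polynomials in the entries of a `q × q` matrix `g` with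
coefficients in the local sections of `M` which are semi-invariant of the weight `d` under the
parabolic group `P` and transform correctly. For a permutation `w` of the rows let `σ_w` be the section
of `Y → X` given by the permutation matrix. If `L = O_Y(d; M)` is ample then its restrictions
`M ⊗ ∏ c_{w(i)}^{- d(b(i))}` to the `σ_w` are ample, and `d` decreases strictly from block to block
(tangent vectors at the permutation matrices, and Liouville's theorem). For an involution `π` of the
indices the line bundle on `X` given by the weight `l_i = d(b(i))` shifted by the root `e_i - e_{π i}`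
for all pairs `i, π i` with `b(i) < b(π i)` is a rational convex combination of ample line bundles, thus
ample. The pairs of indices can be coloured by `q` colours such that each colour is an involution
(`i ↦ c - i` modulo `q`); so the line bundle on `X` given by the weight of `K_Y + L_1 + ... + L_k`,
`k ≥ q`, and the permutation `w` is `K_X` plus a sum of `k` ample line bundles. Its sections, times a
product of powers of the minors of the rows `w(1), ..., w(n)` and the first `n` columns, are sections of
`K_Y + ∑ L_j`, and for each point `g` there is a `w` such that these minors do not vanish at `g`.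
If `k ≥ q + 1` then one `L_j` is not shifted; shifting it by one root gives the sections in which one
minor is replaced by that in which the row `w(j)` is replaced by `w(i)`. The quotients of these minors
are the coordinates of the big cell, so that these sections separate the points and the tangent vectors.

The proof of (2). The theorem of Lefschetz, for products of different ample line bundles, is proved in
`Pool.Agent.Q47.FJ`.

Definitions. `Atlas`, `LB`, `GG`, `VA`, `IsAmple` (line bundles on complex manifolds) are in
`Pool.Agent.Q47.FJ.Defs`; `IsCanonical` (`K_X`), `torus` and `IsChern` are in `Pool.Agent.Q47.FJ.DefsT`;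
`IsSecF`, `GGF`, `VAF`, `AmpleF` (line bundles `O_Y(d; M)` on flag bundles) and `IsAdjoint` are in
`Pool.Agent.Q47.FF.Defs`; `IsSemiInvariant`, `ev` and `anti` are in `Pool.Agent.Q47.FL.Defs`;
`IsHermitian` is in `Pool.Agent.W594.SYZ.TQDefs`. The weights `d` are natural numbers, since
`O_Y(d + 1; M) = O_Y(d; M ⊗ ∏ c_i ^ (-1))` (multiplication with the determinant); for `d ≥ 0` all
sections over the open sets of `X` are given by polynomials if `d` is weakly decreasing.
-/

set_option autoImplicit false

namespace Pool.Agent.Results.MP_e09b14_ag.FlagBundles

open Q47.FJ Q47.FF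

/-- For all ample line bundles `A_1, ..., A_k` in `Pic` on `X`, `K_X + A_1 + ... + A_k` is very
ample. -/
def AdjointsAreVA {E I K : Type} [NormedAddCommGroup E] [NormedSpace ℂ E] (X : Atlas E I K)
    (Pic : Subgroup (LB X)) (k : ℕ) : Prop :=
  ∀ κ : LB X, IsCanonical κ → ∀ A : Fin k → LB X, (∀ j, A j ∈ Pic ∧ IsAmple (A j)) →
    VA (κ * ∏ j, A j)

/-- Let the weakly increasing function `b : Fin q → ℕ` describe a type of flags in `ℂ^q`.

(1) Let `Y → X` be the bundle of the flags of this type in the fibres of the direct sum of the line
bundles `c_i` on the nonempty complex manifold `X`, let `κ = K_X`, let `Pic` be a subgroup of the group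
of the line bundles on `X` which contains the `c_i`, and let `L_j = O_Y(d_j; M_j)`, `j = 1, ..., k`, be
ample, `M_j ∈ Pic`, `k ≥ q + 1`. Then the weight `∑ d_j - anti` of `K_Y + L_1 + ... + L_k` is
nonnegative, `K_Y + L_1 + ... + L_k = O_Y(D; K_X ⊗ M_1 ⊗ ... ⊗ M_k)`. If all adjoint line bundles
`K_X + A_1 + ... + A_k`, `A_j ∈ Pic` ample, are very ample, then `K_Y + L_1 + ... + L_k` is very ample.

(2) Let `Y → V / Λ` be the bundle of the flags of this type in the fibres of the direct sum of the line
bundles `c_i` on the complex torus `V / Λ`, let `κ` be the canonical line bundle of `V / Λ`, and let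
`L_j = O_Y(d_j; M_j)`, `j = 1, ..., k`, be ample, `k ≥ max(q + 1, 3)`. (`c_i` and `M_j` have Chern
forms.) Then `K_Y + L_1 + ... + L_k` is very ample. -/
theorem result {q : ℕ} {b : Fin q → ℕ} (hb : Monotone b) :
    (∀ {E I K : Type} [NormedAddCommGroup E] [NormedSpace ℂ E]
      (X : Atlas E I K), (∃ i, (X.U i).Nonempty) → ∀ (Pic : Subgroup (LB X)) (c : Fin q → LB X),
      (∀ i, c i ∈ Pic) → ∀ κ : LB X, IsCanonical κ →
      ∀ (k : ℕ) (d : Fin k → ℕ → ℕ) (M : Fin k → LB X), (∀ j, M j ∈ Pic) →
      (∀ j, AmpleF b c (d j) (M j)) → q + 1 ≤ k →
        (∃ D, IsAdjoint b d D) ∧ ∀ D, IsAdjoint b d D →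
          AdjointsAreVA X Pic k → VAF b c D (κ * ∏ j, M j)) ∧
    (∀ {V : Type} [NormedAddCommGroup V] [NormedSpace ℂ V] [FiniteDimensional ℂ V]
      (Λ : AddSubgroup V), DiscreteTopology Λ → Submodule.span ℝ (Λ : Set V) = ⊤ →
      ∀ c : Fin q → LB (torus Λ), (∀ i, ∃ H, IsChern (c i) H) →
      ∀ κ : LB (torus Λ), IsCanonical κ →
      ∀ (k : ℕ) (d : Fin k → ℕ → ℕ) (M : Fin k → LB (torus Λ)), (∀ j, ∃ H, IsChern (M j) H) →
      (∀ j, AmpleF b c (d j) (M j)) → q + 1 ≤ k → 3 ≤ k →
        (∃ D, IsAdjoint b d D) ∧ ∀ D, IsAdjoint b d D → VAF b c D (κ * ∏ j, M j)) := by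
  refine ⟨?_, ?_⟩
  · intro E I K _ _ X hne Pic c hc κ hκ k d M hM h hk
    obtain ⟨i₀, z₀, hz₀⟩ := hne
    exact ⟨adj_exists t_strict hb (by omega) h hz₀, fun D hD hX =>
      va_red t_strict t_match t_lu t_tlu hb Pic hc hκ hk hM h hX hD⟩
  · intro V _ _ _ Λ hd hs c hc κ hκ k d M hM h hk hk3
    exact ⟨adj_exists t_strict hb (by omega) h (i₀ := ()) (Set.mem_univ (0 : V)), fun D hD =>
      va_main t_strict t_match t_lu t_tlu hd hs hb hc hκ hk hk3 hM h hD⟩

end Pool.Agent.Results.MP_e09b14_ag.FlagBundles
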