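import Pool.Agent.Q47.FJ.Main

/-!
# Fujita's very ampleness conjecture for toric bundles

Let `X` be a compact complex manifold, and let `Y → X` be a toric bundle: a locally trivial bundle
whose fibre `F` is a smooth complete toric variety of dimension `n`, twisted by arbitrary line bundles
`c_i` on `X`, one for each ray of the fan of `F` (for example the projectivisation of a direct sum of
`n + 1` line bundles on `X`). The structure group is the torus, and `dim Y = dim X + n`. We consider
the adjoint line bundles `K_Y + L_1 + ... + L_k`, where `L_1, ..., L_k` are ample line bundles on `Y`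
which may be different. (Fujita's conjecture is about the case `L_1 = ... = L_k = A`,
`k = dim Y + 2`.)

Part (1) of the theorem reduces the conjecture to the base. Let `k ≥ n + 2`. If for all ample line
bundles `A_1, ..., A_k` on `X` the line bundle `K_X + A_1 + ... + A_k` is very ample, then for all ample
line bundles `L_1, ..., L_k` on `Y` the line bundle `K_Y + L_1 + ... + L_k` is very ample. So if the
conjecture (for sums of ample line bundles) holds for `X` then it holds for all toric bundles over `X`,
of any fibre dimension. Instead of all line bundles on `X` one may take those in a subgroup of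
`Pic(X)` which contains the `c_i`.

Part (2) is unconditional: if `X` is a complex torus (for example an abelian variety) of any dimension,
then for all ample line bundles `L_1, ..., L_k` on `Y` the line bundle `K_Y + L_1 + ... + L_k` is
very ample if `k ≥ max(n + 2, 3)`. In particular the conjecture of Fujita holds for `Y`. The bound
does not depend on `dim X`, and it is optimal for `F = ℙ^n`.

The proof of (1). The sections of a line bundle on `Y` are polynomials in the Cox coordinates; the
coefficient of the monomial `x^α` is a section of a line bundle `N_α` on `X`. If `L` is ample and `σ`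
is a maximal cone, then there is exactly one monomial `x^β` of the class of `L` on the fibres with
`β = 0` on `σ`; then `N_β(L)` is the restriction of `L` to the section of `Y → X` given by `σ`, hence
ample; the `β_i`, `i ∉ σ`, are positive, since `L` separates tangent vectors; and for `l ∈ σ` and the
dual vector `m_l` the monomial `x^{β + m_l}` is polynomial and `N_{β + m_l}(L)` is ample, since it is a
rational convex combination of the ample line bundles of `σ` and of the adjacent cone. Let `k ≥ n + 2`.
Choose for each of the (at most `n`) rays `l ∈ σ` another `L_j` and replace `β(L_j)` by `β(L_j) + m_l`.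
The sum `B` of the `k` exponents is `1` on `σ` and at least `2` off `σ`, and `x^{B - 1}` is a monomial
of `K_Y + ∑ L_j` with `N_{B - 1} = K_X + ∑ (ample)`. One may also replace one more `β(L_j)` by
`β(L_j) + m_l`. The sections `s x^{B - 1}` and `s x^{B - 1 + m_l}` separate the points and the tangent
vectors over the cone `σ`.

The proof of (2). On a complex torus the sections `s_1(v + a_1) s_2(v + a_2) s_3(v + a_3)`,
`∑ H_i(a_i, ·) = 0`, of products of ample line bundles with the Chern forms `H_i` separate the points
and the tangent vectors (theorem of Lefschetz; all this is proved here, including the existence of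
theta functions for all positive line bundles).

This is the part on very ampleness of the hand-in `MP_9ff3e7_ag.ToricBundles` on Fujita's two
conjectures.

Definitions. `Atlas`, `LB`, `VA`, `IsAmple` (line bundles on complex manifolds), `IsSecY`, `VAY`,
`AmpleY` (line bundles `O_Y(d; M)` on toric bundles) are in `Pool.Agent.Q47.FJ.Defs`; `IsCanonical`
(`K_X`), `IsCanonicalY` (`K_Y = O_Y(-1, ..., -1; N)`), `torus` and `IsChern` are in
`Pool.Agent.Q47.FJ.DefsT`; `IsSmoothFan` is in `Pool.Agent.Q47.TB.Defs`; `IsHermitian` is in
`Pool.Agent.W594.SYZ.TQDefs`.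
-/

set_option autoImplicit false

namespace Pool.Agent.Results.MP_e09b14_ag.ToricBundles

open Q47.TB Q47.FJ

/-- For all ample line bundles `A_1, ..., A_k` in `Pic` on `X`, `K_X + A_1 + ... + A_k` is very
ample. -/
def AdjointsAreVA {E I K : Type} [NormedAddCommGroup E] [NormedSpace ℂ E] (X : Atlas E I K)
    (Pic : Subgroup (LB X)) (k : ℕ) : Prop :=
  ∀ κ : LB X, IsCanonical κ → ∀ A : Fin k → LB X, (∀ j, A j ∈ Pic ∧ IsAmple (A j)) →
    VA (κ * ∏ j, A j)

/-- Let `u`, `S` be a smooth complete fan of dimension `n`.

(1) Let `Y → X` be the toric bundle with this fan given by the line bundles `c_i` on the complex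
manifold `X`, let `K_Y = O_Y(-1, ..., -1; N)`, let `Pic` be a subgroup of the group of the line bundles
on `X` which contains the `c_i`, and let `L_j = O_Y(d_j; M_j)`, `j = 1, ..., k`, be ample, `M_j ∈ Pic`,
`k ≥ n + 2`. If all adjoint line bundles `K_X + A_1 + ... + A_k`, `A_j ∈ Pic` ample, are very ample,
then `K_Y + L_1 + ... + L_k` is very ample.

(2) Let `Y → V / Λ` be the toric bundle with this fan given by the line bundles `c_i` on the complex
torus `V / Λ`, let `K_Y = O_Y(-1, ..., -1; N)`, and let `L_j = O_Y(d_j; M_j)`, `j = 1, ..., k`, be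
ample, `k ≥ max(n + 2, 3)`. (`c_i` and `M_j` have Chern forms.) Then `K_Y + L_1 + ... + L_k` is very
ample. -/
theorem result {ι : Type} [Fintype ι] {n : ℕ} {u : ι → Fin n → ℤ} {S : Set (Set ι)}
    (hS : IsSmoothFan u S) :
    (∀ {E I K : Type} [NormedAddCommGroup E] [NormedSpace ℂ E] [FiniteDimensional ℂ E]
      (X : Atlas E I K) (Pic : Subgroup (LB X)) (c : ι → LB X), (∀ i, c i ∈ Pic) →
      ∀ N : LB X, IsCanonicalY c N →
      ∀ (k : ℕ) (d : Fin k → ι → ℤ) (M : Fin k → LB X), (∀ j, M j ∈ Pic) →
      (∀ j, AmpleY u S c (d j) (M j)) → n + 2 ≤ k → AdjointsAreVA X Pic k →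
        VAY u S c (fun i => ∑ j, d j i - 1) (N * ∏ j, M j)) ∧
    (∀ {V : Type} [NormedAddCommGroup V] [NormedSpace ℂ V] [FiniteDimensional ℂ V]
      (Λ : AddSubgroup V), DiscreteTopology Λ → Submodule.span ℝ (Λ : Set V) = ⊤ →
      ∀ c : ι → LB (torus Λ), (∀ i, ∃ H, IsChern (c i) H) →
      ∀ N : LB (torus Λ), IsCanonicalY c N →
      ∀ (k : ℕ) (d : Fin k → ι → ℤ) (M : Fin k → LB (torus Λ)), (∀ j, ∃ H, IsChern (M j) H) →
      (∀ j, AmpleY u S c (d j) (M j)) → n + 2 ≤ k → 3 ≤ k →
        VAY u S c (fun i => ∑ j, d j i - 1) (N * ∏ j, M j)) := by
  refine ⟨?_, ?_⟩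
  · intro E I K _ _ _ X Pic c hc N hN k d M hM h hk hX
    exact va_red hS Pic hc hN hk hM h hX
  · intro V _ _ _ Λ hd hs c hc N hN k d M hM h hk hk3
    exact va_main hd hs hS hc hN hk hk3 hM h

end Pool.Agent.Results.MP_e09b14_ag.ToricBundles
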